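import Pool.Agent.helper73.BRZ.Spec

set_option autoImplicit false

namespace Pool.Agent.BRZ

open Matrix Module Pool.Agent.PR Pool.Agent.SHL TensorProduct MeasureTheory
open scoped ENNReal ContDiff RealInnerProductSpace FourierTransform SchwartzMap

section QSC_aux

variable {d : ℕ} {D : Type} [DivisionRing D] [Algebra ℚ D]

/-- the Gaussian -/
noncomputable def QSC_f {N : ℕ} (g : EE N) : ℝ≥0∞ := ENNReal.ofReal (Real.exp (-‖g‖ ^ 2))

/-- the Gaussian sum -/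
noncomputable def QSC_th (S : SO d D) (g : EE (d * d)) (Y : S.LY) : ℝ≥0∞ :=
  ∑' z : {z : Y.1 // z ≠ 0}, ENNReal.ofReal (Real.exp (-‖S.act z.1 g‖ ^ 2))

/-- the measure weight -/
noncomputable def QSC_W (S : SO d D) (g : EE (d * d)) : ℝ≥0∞ := ENNReal.ofReal ((S.dl g)⁻¹)

/-- the pairs -/
def QSC_P (S : SO d D) : Type := {q : S.LY × D // q.2 ∈ q.1.1 ∧ q.2 ≠ 0}

theorem QSC_fm {N : ℕ} : Measurable (QSC_f : EE N → ℝ≥0∞) := by
  unfold QSC_f
  fun_prop

theorem QSC_one (S : SO d D) (Y : S.LY) : (1 : D) ∈ Y.1 := by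
  apply Y.2.1
  obtain ⟨c, hc⟩ := S.one
  rw [hc]
  exact AddSubgroup.sum_mem _ fun l _ =>
    AddSubgroup.zsmul_mem _ (AddSubgroup.subset_closure (Set.mem_range_self l)) _

theorem QSC_cD (S : SO d D) : Countable D :=
  S.b.equivFun.toEquiv.injective.countable

theorem QSC_act_one (S : SO d D) (g : EE (d * d)) : S.act 1 g = g := by
  unfold SO.act
  rw [← Algebra.TensorProduct.one_def, one_mul, LinearEquiv.apply_symm_apply]

/-- sums over the pairs -/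
theorem QSC_sum (S : SO d D) (F : S.LY → D → ℝ≥0∞) :
    ∑' Y : S.LY, ∑' z : {z : Y.1 // z ≠ 0}, F Y (z.1 : D) = ∑' p : QSC_P S, F p.1.1 p.1.2 := by
  let e : (Σ Y : S.LY, {z : Y.1 // z ≠ 0}) ≃ QSC_P S :=
    { toFun := fun p => ⟨(p.1, (p.2.1 : D)), p.2.1.2, fun h => p.2.2 (Subtype.ext h)⟩
      invFun := fun q => ⟨q.1.1, ⟨⟨q.1.2, q.2.1⟩, fun h => q.2.2 (congrArg Subtype.val h)⟩⟩
      left_inv := fun p => rfl
      right_inv := fun q => rfl }
  rw [← e.tsum_eq (fun p : QSC_P S => F p.1.1 p.1.2)]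
  exact (ENNReal.tsum_sigma (fun (Y : S.LY) (z : {z : Y.1 // z ≠ 0}) => F Y (z.1 : D))).symm

/-- the involution of the pairs -/
theorem QSC_inv (S : SO d D) (sh : S.LY → D → S.LY)
    (hsh : ∀ (Y : S.LY) (z : D), z ∈ Y.1 → z ≠ 0 → ∀ x, x ∈ (sh Y z).1 ↔ x * z ∈ Y.1)
    (F : S.LY → D → ℝ≥0∞) :
    ∑' p : QSC_P S, F (sh p.1.1 p.1.2) (p.1.2)⁻¹ = ∑' p : QSC_P S, F p.1.1 p.1.2 := by
  have hmem : ∀ p : QSC_P S, (p.1.2)⁻¹ ∈ (sh p.1.1 p.1.2).1 := by
    intro p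
    rw [hsh p.1.1 p.1.2 p.2.1 p.2.2, inv_mul_cancel₀ p.2.2]
    exact QSC_one S _
  let f : QSC_P S → QSC_P S := fun p => ⟨(sh p.1.1 p.1.2, (p.1.2)⁻¹), hmem p, inv_ne_zero p.2.2⟩
  have hf : Function.Involutive f := by
    intro p
    apply Subtype.ext
    apply Prod.ext
    · change sh (sh p.1.1 p.1.2) (p.1.2)⁻¹ = p.1.1
      apply Subtype.ext
      apply AddSubgroup.ext
      intro x
      rw [hsh _ _ (hmem p) (inv_ne_zero p.2.2), hsh _ _ p.2.1 p.2.2, mul_assoc,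
        inv_mul_cancel₀ p.2.2, mul_one]
    · change ((p.1.2)⁻¹)⁻¹ = p.1.2
      exact inv_inv _
  exact hf.toPerm.tsum_eq (fun p : QSC_P S => F p.1.1 p.1.2)

/-- invariance of the Gaussian sum -/
theorem QSC_thi (S : SO d D) (sh : S.LY → D → S.LY)
    (hsh : ∀ (Y : S.LY) (z : D), z ∈ Y.1 → z ≠ 0 → ∀ x, x ∈ (sh Y z).1 ↔ x * z ∈ Y.1)
    (h7 : ∀ (z w : D) (g : EE (d * d)), S.act z (S.act w g) = S.act (z * w) g)
    (Y : S.LY) (z : D) (hz : z ∈ Y.1) (hz0 : z ≠ 0) (g : EE (d * d)) :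
    QSC_th S (S.act z g) (sh Y z) = QSC_th S g Y := by
  let e : {u : (sh Y z).1 // u ≠ 0} ≃ {v : Y.1 // v ≠ 0} :=
    { toFun := fun u => ⟨⟨(u.1 : D) * z, (hsh Y z hz hz0 _).1 u.1.2⟩, fun h =>
        u.2 (Subtype.ext (by
          have h1 : (u.1 : D) * z = 0 := congrArg Subtype.val h
          exact (mul_eq_zero.1 h1).resolve_right hz0))⟩
      invFun := fun v => ⟨⟨(v.1 : D) * z⁻¹, (hsh Y z hz hz0 _).2 (by
          rw [mul_assoc, inv_mul_cancel₀ hz0, mul_one]; exact v.1.2)⟩, fun h =>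
        v.2 (Subtype.ext (by
          have h1 : (v.1 : D) * z⁻¹ = 0 := congrArg Subtype.val h
          exact (mul_eq_zero.1 h1).resolve_right (inv_ne_zero hz0)))⟩
      left_inv := fun u => by
        apply Subtype.ext
        apply Subtype.ext
        change (u.1 : D) * z * z⁻¹ = u.1
        rw [mul_assoc, mul_inv_cancel₀ hz0, mul_one]
      right_inv := fun v => by
        apply Subtype.ext
        apply Subtype.ext
        change (v.1 : D) * z⁻¹ * z = v.1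
        rw [mul_assoc, inv_mul_cancel₀ hz0, mul_one] }
  unfold QSC_th
  rw [← e.tsum_eq]
  apply tsum_congr
  intro u
  rw [h7]
  rfl

/-- unfolding -/
theorem QSC_unf (S : SO d D) (sh : S.LY → D → S.LY) [Countable S.LY] [Countable D]
    (hsh : ∀ (Y : S.LY) (z : D), z ∈ Y.1 → z ≠ 0 → ∀ x, x ∈ (sh Y z).1 ↔ x * z ∈ Y.1)
    (h7 : ∀ (z w : D) (g : EE (d * d)), S.act z (S.act w g) = S.act (z * w) g)
    (hact : ∀ z : D, Measurable (S.act z)) (hW : Measurable (QSC_W S))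
    (hth : ∀ Y : S.LY, Measurable fun g => QSC_th S g Y)
    (hMEC : ∀ F : EE (d * d) → ℝ≥0∞, Measurable F → ∀ z : D, z ≠ 0 →
      ∫⁻ g, F (S.act z g) * QSC_W S g = ∫⁻ g, F g * QSC_W S g)
    (hGSU : ∀ (Y : S.LY) (g : EE (d * d)), S.dl g ≠ 0 → QSC_th S g Y ≠ 0 ∧ QSC_th S g Y ≠ ⊤)
    (K : EE (d * d) → S.LY → ℝ≥0∞) (hK : ∀ Y, Measurable fun g => K g Y) :
    ∑' Y : S.LY, ∫⁻ g, (QSC_f g / QSC_th S g Y) *
        (∑' z : {z : Y.1 // z ≠ 0}, K (S.act z.1 g) (sh Y z.1)) * QSC_W S g =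
      ∑' Y : S.LY, ∫⁻ g, K g Y * QSC_W S g := by
  set G : S.LY → D → ℝ≥0∞ := fun Y z =>
    ∫⁻ g, QSC_f (S.act z g) / QSC_th S g Y * K g Y * QSC_W S g with hG
  have hA : ∀ Y : S.LY, ∫⁻ g, (QSC_f g / QSC_th S g Y) *
        (∑' z : {z : Y.1 // z ≠ 0}, K (S.act z.1 g) (sh Y z.1)) * QSC_W S g =
      ∑' z : {z : Y.1 // z ≠ 0}, G (sh Y (z.1 : D)) (z.1 : D)⁻¹ := by
    intro Y
    have h1 : ∀ z : {z : Y.1 // z ≠ 0}, G (sh Y (z.1 : D)) (z.1 : D)⁻¹ =
        ∫⁻ g, QSC_f g / QSC_th S g Y * K (S.act z.1 g) (sh Y z.1) * QSC_W S g := by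
      intro z
      have hz0 : (z.1 : D) ≠ 0 := fun h => z.2 (Subtype.ext h)
      have h2 := hMEC (fun g => QSC_f (S.act (z.1 : D)⁻¹ g) / QSC_th S g (sh Y z.1) * K g (sh Y z.1))
        (((QSC_fm.comp (hact _)).div (hth _)).mul (hK _)) z.1 hz0
      rw [hG]
      dsimp only
      rw [← h2]
      apply lintegral_congr
      intro g
      rw [h7, inv_mul_cancel₀ hz0, QSC_act_one, QSC_thi S sh hsh h7 Y z.1 z.1.2 hz0]
    rw [tsum_congr h1, ← lintegral_tsum]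
    · apply lintegral_congr
      intro g
      rw [ENNReal.tsum_mul_right, ENNReal.tsum_mul_left]
    · intro z
      exact (((QSC_fm.div (hth _)).mul ((hK _).comp (hact _))).mul hW).aemeasurable
  have hB : ∀ Y : S.LY, ∑' z : {z : Y.1 // z ≠ 0}, G Y (z.1 : D) = ∫⁻ g, K g Y * QSC_W S g := by
    intro Y
    rw [hG]
    dsimp only
    rw [← lintegral_tsum]
    · apply lintegral_congr
      intro g
      rw [ENNReal.tsum_mul_right]
      by_cases hg : S.dl g = 0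
      · have : QSC_W S g = 0 := by
          unfold QSC_W
          rw [hg, _root_.inv_zero, ENNReal.ofReal_zero]
        rw [this, mul_zero, mul_zero]
      · congr 1
        rw [ENNReal.tsum_mul_right]
        have h3 : ∑' z : {z : Y.1 // z ≠ 0}, QSC_f (S.act (z.1 : D) g) / QSC_th S g Y = 1 := by
          simp only [div_eq_mul_inv]
          rw [ENNReal.tsum_mul_right]
          exact ENNReal.mul_inv_cancel (hGSU Y g hg).1 (hGSU Y g hg).2
        rw [h3, one_mul]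
    · intro z
      exact ((((QSC_fm.comp (hact _)).div (hth _)).mul (hK _)).mul hW).aemeasurable
  rw [tsum_congr hA, QSC_sum S (fun Y z => G (sh Y z) z⁻¹), QSC_inv S sh hsh G, ← QSC_sum S G,
    tsum_congr hB]

end QSC_aux

theorem QSC (hRAL : RAL_stmt) (hIDX : IDX_stmt) (hMEC : MEC_stmt) (hGSU : GSU_stmt) : QSC_stmt := by
  intro d D _ _ _ hd S
  obtain ⟨-, h2, h3, -, -, h6, h7, h8, h9, -, -⟩ := hRAL d D hd S
  obtain ⟨hI1, -, hI3⟩ := hIDX d D hd S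
  have hcD : Countable D := QSC_cD S
  have hact : ∀ z : D, Measurable (S.act z) := by
    intro z
    obtain ⟨L, hL, -⟩ := h6 z
    have h1 : S.act z = L := by
      funext g
      exact (hL g).symm
    rw [h1]
    exact L.continuous_of_finiteDimensional.measurable
  have hdl : Measurable S.dl := h3.measurable
  have hW : Measurable (QSC_W S) := by
    unfold QSC_W
    exact ENNReal.measurable_ofReal.comp hdl.inv
  have hth : ∀ Y : S.LY, Measurable fun g => QSC_th S g Y := by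
    intro Y
    unfold QSC_th
    exact Measurable.tsum fun z => QSC_fm.comp (hact _)
  have hnu : ∀ Y : S.LY, Measurable fun g => S.nu g Y := by
    intro Y
    unfold SO.nu
    exact hdl.div_const _
  have hM : ∀ F : EE (d * d) → ℝ≥0∞, Measurable F → ∀ z : D, z ≠ 0 →
      ∫⁻ g, F (S.act z g) * QSC_W S g = ∫⁻ g, F g * QSC_W S g :=
    fun F hF => (hMEC d D hd S F hF).1
  have hMc : ∀ F : EE (d * d) → ℝ≥0∞, Measurable F → ∀ c : ℝ, c ≠ 0 →
      ∫⁻ g, F (c • g) * QSC_W S g = ∫⁻ g, F g * QSC_W S g :=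
    fun F hF => (hMEC d D hd S F hF).2
  have hG : ∀ (Y : S.LY) (g : EE (d * d)), S.dl g ≠ 0 → QSC_th S g Y ≠ 0 ∧ QSC_th S g Y ≠ ⊤ :=
    fun Y g hg => hGSU d D hd S Y g hg
  have hex : ∀ (Y : S.LY) (z : D), ∃ Y' : S.LY, z ∈ Y.1 → z ≠ 0 → (∀ x, x ∈ Y'.1 ↔ x * z ∈ Y.1) ∧
      (S.ix Y' : ℝ) = S.ix Y * |(nor z : ℝ)| := by
    intro Y z
    by_cases h : z ∈ Y.1 ∧ z ≠ 0
    · obtain ⟨Y', hY'⟩ := hI1 Y z h.1 h.2
      exact ⟨Y', fun _ _ => hY'⟩
    · exact ⟨Y, fun h1 h2 => absurd ⟨h1, h2⟩ h⟩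
  choose sh hsh0 using hex
  have hsh : ∀ (Y : S.LY) (z : D), z ∈ Y.1 → z ≠ 0 → ∀ x, x ∈ (sh Y z).1 ↔ x * z ∈ Y.1 :=
    fun Y z hz hz0 => (hsh0 Y z hz hz0).1
  have hix : ∀ Y : S.LY, (S.ix Y : ℝ) ≠ 0 := fun Y => Nat.cast_ne_zero.2 Y.2.2.2
  have hnui : ∀ (Y : S.LY) (z : D), z ∈ Y.1 → z ≠ 0 → ∀ g, S.nu (S.act z g) (sh Y z) = S.nu g Y := by
    intro Y z hz hz0 g
    unfold SO.nu
    have h1 := (hsh0 Y z hz hz0).2
    have h4 : |(nor z : ℝ)| ≠ 0 := by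
      intro h
      rw [h, mul_zero] at h1
      exact hix _ h1
    rw [h2, h1, mul_comm (|(nor z : ℝ)|), mul_div_mul_right _ _ h4]
  refine ⟨fun g Y => QSC_f g / QSC_th S g Y, fun Y => QSC_fm.div (hth Y), ?_, ?_⟩
  · intro h φ hh hφ
    have hu := QSC_unf S sh hsh h7 hact hW hth hM hG (fun g Y => h (S.nu g Y) * φ g)
      (fun Y => (hh.comp (hnu Y)).mul hφ)
    refine Eq.trans (tsum_congr fun Y => lintegral_congr fun g => ?_) hu
    have h1 : ∑' z : {z : Y.1 // z ≠ 0}, h (S.nu (S.act z.1 g) (sh Y z.1)) * φ (S.act z.1 g) =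
        h (S.nu g Y) * ∑' z : {z : Y.1 // z ≠ 0}, φ (S.act z.1 g) := by
      rw [← ENNReal.tsum_mul_left]
      apply tsum_congr
      intro z
      rw [hnui Y z.1 z.1.2 (fun h => z.2 (Subtype.ext h))]
    dsimp only
    rw [h1, ← mul_assoc (QSC_f g / QSC_th S g Y)]
    rfl
  · intro h c hh hc
    have hN : d * d ≠ 0 := Nat.mul_ne_zero hd.ne' hd.ne'
    obtain ⟨t, ht0, ht⟩ : ∃ t : ℝ, 0 < t ∧ t ^ (d * d) = c :=
      ⟨c ^ (((d * d : ℕ) : ℝ)⁻¹), Real.rpow_pos_of_pos hc _, Real.rpow_inv_natCast_pow hc.le hN⟩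
    have hnt : ∀ (g : EE (d * d)) (Y : S.LY), S.nu (t • g) Y = c * S.nu g Y := by
      intro g Y
      unfold SO.nu
      rw [h8, abs_of_pos ht0, ht, mul_div_assoc]
    have hsm : Measurable fun g : EE (d * d) => t • g := measurable_const_smul t
    have hu := QSC_unf S sh hsh h7 hact hW hth hM hG
      (fun g Y => h (c * S.nu g Y) * (QSC_f (t • g) / QSC_th S (t • g) Y))
      (fun Y => (hh.comp ((hnu Y).const_mul c)).mul ((QSC_fm.comp hsm).div ((hth Y).comp hsm)))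
    have hL : ∑' Y : S.LY, ∫⁻ g, QSC_f g / QSC_th S g Y * h (c * S.nu g Y) * ENNReal.ofReal ((S.dl g)⁻¹) =
        ∑' Y : S.LY, ∫⁻ g, h (c * S.nu g Y) * (QSC_f (t • g) / QSC_th S (t • g) Y) * QSC_W S g := by
      rw [← hu]
      refine tsum_congr fun Y => lintegral_congr fun g => ?_
      by_cases hg : S.dl g = 0
      · have h0 : QSC_W S g = 0 := by
          unfold QSC_W
          rw [hg, _root_.inv_zero, ENNReal.ofReal_zero]
        rw [h0, mul_zero, hg, _root_.inv_zero, ENNReal.ofReal_zero, mul_zero]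
      · have hgt : S.dl (t • g) ≠ 0 := by
          rw [h8]
          exact mul_ne_zero (pow_ne_zero _ (abs_ne_zero.2 ht0.ne')) hg
        have h1 : ∑' z : {z : Y.1 // z ≠ 0}, h (c * S.nu (S.act z.1 g) (sh Y z.1)) *
            (QSC_f (t • S.act z.1 g) / QSC_th S (t • S.act z.1 g) (sh Y z.1)) = h (c * S.nu g Y) := by
          have h4 : ∀ z : {z : Y.1 // z ≠ 0}, h (c * S.nu (S.act z.1 g) (sh Y z.1)) *
            (QSC_f (t • S.act z.1 g) / QSC_th S (t • S.act z.1 g) (sh Y z.1)) =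
            h (c * S.nu g Y) * (QSC_f (S.act z.1 (t • g)) * (QSC_th S (t • g) Y)⁻¹) := by
            intro z
            have hz0 : (z.1 : D) ≠ 0 := fun h => z.2 (Subtype.ext h)
            rw [hnui Y z.1 z.1.2 hz0, ← h9, QSC_thi S sh hsh h7 Y z.1 z.1.2 hz0, div_eq_mul_inv]
          rw [tsum_congr h4, ENNReal.tsum_mul_left, ENNReal.tsum_mul_right]
          have h5 : (∑' z : {z : Y.1 // z ≠ 0}, QSC_f (S.act (z.1 : D) (t • g))) * (QSC_th S (t • g) Y)⁻¹ = 1 :=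
            ENNReal.mul_inv_cancel (hG Y _ hgt).1 (hG Y _ hgt).2
          rw [h5, mul_one]
        rw [h1]
        rfl
    rw [hL]
    refine tsum_congr fun Y => ?_
    have hc1 := hMc (fun g => QSC_f g / QSC_th S g Y * h (S.nu g Y))
      ((QSC_fm.div (hth Y)).mul (hh.comp (hnu Y))) t ht0.ne'
    refine Eq.trans (lintegral_congr fun g => ?_) hc1
    rw [hnt, mul_comm (h (c * S.nu g Y))]

end Pool.Agent.BRZ
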